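import Pool.Agent.TTC.Stmts

/-!
Squad TTC (MP_160b6c_nt), row DSC (helper19): the discriminant takes each value at most four times in
a pencil.
-/

set_option autoImplicit false

open Polynomial

namespace Pool.Agent.TTC.H19

lemma natDegree_qp (a : Fin 4 → ℤ) (c : ℤ) : (qp a c).natDegree = 5 := by
  unfold qp
  compute_degree!

lemma monic_qp (a : Fin 4 → ℤ) (c : ℤ) : (qp a c).Monic := by
  unfold qp
  monicity!

lemma derivative_qp (a : Fin 4 → ℤ) (c : ℤ) : derivative (qp a c) = derivative (qp a 0) := by
  unfold qp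
  simp

lemma discr_eq (a : Fin 4 → ℤ) (c : ℤ) :
    discr (qp a c) = resultant (qp a c) (derivative (qp a 0)) 5 4 := by
  have h0 : 0 < (qp a c).degree := by
    rw [← natDegree_pos_iff_degree_pos, natDegree_qp]
    norm_num
  have h := resultant_deriv h0
  rw [natDegree_qp, (monic_qp a c).leadingCoeff, derivative_qp] at h
  rw [h]
  norm_num

/-- the pencil over the complex numbers -/
lemma map_qp (a : Fin 4 → ℤ) (c : ℤ) : (qp a c).map (Int.castRingHom ℂ) =
    (qp a 0).map (Int.castRingHom ℂ) + C (c : ℂ) := by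
  unfold qp
  simp

theorem dsc : DscStmt := by
  intro a m
  set f : ℂ[X] := (qp a 0).map (Int.castRingHom ℂ) with hf
  set g : ℂ[X] := derivative f with hg
  have hinj : Function.Injective (Int.castRingHom ℂ) := (Int.castRingHom ℂ).injective_int
  have hfd : f.natDegree = 5 := by
    rw [hf, natDegree_map_eq_of_injective hinj, natDegree_qp]
  have hfm : f.Monic := (monic_qp a 0).map _
  have hgd : g.natDegree = 4 := by
    have h1 := degree_derivative (p := f) (by rw [hfd]; norm_num)
    rw [hfd] at h1
    rw [hg]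
    exact natDegree_eq_of_degree_eq_some h1
  have hgl : g.leadingCoeff = 5 := by
    rw [leadingCoeff, hgd, hg, coeff_derivative]
    have h1 : f.coeff (4 + 1) = 1 := by
      have := hfm.coeff_natDegree
      rwa [hfd] at this
    rw [h1]
    norm_num
  -- the discriminant as a function of `c`
  have hval : ∀ c : ℤ, ((discr (qp a c) : ℤ) : ℂ) =
      5 ^ 5 * (g.roots.map fun θ => f.eval θ + (c : ℂ)).prod := by
    intro c
    have h1 := resultant_map_map (qp a c) (derivative (qp a 0)) 5 4 (Int.castRingHom ℂ)
    rw [← discr_eq, ← derivative_map, map_qp, ← hf, ← hg, resultant_comm] at h1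
    have h2 := resultant_eq_prod_eval g (f + C (c : ℂ)) 5
      (by rw [natDegree_add_C, hfd]) (IsAlgClosed.splits g)
    rw [hgd, hgl] at h2
    rw [h2] at h1
    simp only [eval_add, eval_C] at h1
    rw [eq_intCast] at h1
    rw [← h1]
    norm_num
  -- the polynomial in `c`
  set P : ℂ[X] := C (5 ^ 5) * (g.roots.map fun θ => X + C (f.eval θ)).prod - C (m : ℂ) with hP
  have hcard : Multiset.card g.roots = 4 := by
    rw [← (IsAlgClosed.splits g).natDegree_eq_card_roots, hgd]
  have hQd : (C ((5 : ℂ) ^ 5) * (g.roots.map fun θ => X + C (f.eval θ)).prod).natDegree = 4 := by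
    rw [natDegree_C_mul (by norm_num)]
    have h3 : (g.roots.map fun θ => X + C (f.eval θ)).prod.natDegree =
        ((g.roots.map fun θ => X + C (f.eval θ)).map natDegree).sum := by
      apply natDegree_multiset_prod_of_monic
      intro q hq
      rw [Multiset.mem_map] at hq
      obtain ⟨θ, -, rfl⟩ := hq
      exact monic_X_add_C _
    rw [h3, Multiset.map_map]
    simp [hcard]
  have hPd : P.natDegree = 4 := by
    rw [hP, natDegree_sub_C, hQd]
  have hP0 : P ≠ 0 := by
    intro h
    rw [h] at hPd
    simp at hPd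
  have hPe : ∀ c : ℤ, P.eval (c : ℂ) = ((discr (qp a c) : ℤ) : ℂ) - (m : ℂ) := by
    intro c
    rw [hval c, hP, eval_sub, eval_mul, eval_C, eval_C, eval_multiset_prod, Multiset.map_map]
    congr 3
    refine Multiset.map_congr rfl fun θ _ => ?_
    simp [add_comm]
  have hsub : (fun c : ℤ => (c : ℂ)) '' {c : ℤ | discr (qp a c) = m} ⊆
      (P.roots.toFinset : Set ℂ) := by
    rintro _ ⟨c, hc, rfl⟩
    simp only [Set.mem_ofPred_eq] at hc
    simp only [Finset.mem_coe, Multiset.mem_toFinset]
    rw [mem_roots hP0, IsRoot.def, hPe, hc, sub_self]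
  have hin : Set.InjOn (fun c : ℤ => (c : ℂ)) {c : ℤ | discr (qp a c) = m} :=
    Int.cast_injective.injOn
  have hfin : {c : ℤ | discr (qp a c) = m}.Finite :=
    Set.Finite.of_finite_image ((Finset.finite_toSet _).subset hsub) hin
  refine ⟨hfin, ?_⟩
  rw [← hin.ncard_image]
  refine (Set.ncard_le_ncard hsub (Finset.finite_toSet _)).trans ?_
  rw [Set.ncard_coe_finset]
  refine (Multiset.toFinset_card_le _).trans ?_
  exact (card_roots' P).trans hPd.le

end Pool.Agent.TTC.H19
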